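import Pool.Agent.Lib.MP_dff026_lc.Defs

open MeasureTheory
open scoped NNReal ENNReal

namespace Pool.Agent.Lib.MP_dff026_lc

variable {n : ℕ}

/-- signed distance from the centre, positive on arc `a`. -/
def sgn (a : Fin n) (x : Fin n → ℝ) : ℝ := 2 * x a - ∑ i, x i

lemma sgn_single_self (a : Fin n) (r : ℝ) : sgn a (Pi.single a r) = r := by
  simp [sgn, Finset.sum_pi_single']; ring

lemma sgn_single_ne {a b : Fin n} (h : b ≠ a) (r : ℝ) : sgn a (Pi.single b r) = -r := by
  simp [sgn, Finset.sum_pi_single', Pi.single_eq_of_ne h.symm]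

lemma sgn_zero (a : Fin n) : sgn a 0 = 0 := by simp [sgn]

lemma eq_of_sgn {a : Fin n} {x : Fin n → ℝ} (hx : InStar x) (h : 0 ≤ sgn a x) :
    x = Pi.single a (sgn a x) := by
  obtain ⟨i, r, h0, h1, rfl⟩ := hx
  by_cases hi : i = a
  · subst hi; rw [sgn_single_self]
  · rw [sgn_single_ne hi] at h ⊢
    have : r = 0 := by linarith
    subst this; simp

lemma sgn_le_one {a : Fin n} {x : Fin n → ℝ} (hx : InStar x) : sgn a x ≤ 1 := by
  obtain ⟨i, r, h0, h1, rfl⟩ := hx
  by_cases hi : i = a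
  · subst hi; rw [sgn_single_self]; exact h1
  · rw [sgn_single_ne hi]; linarith

lemma sgn_sub_le (a : Fin n) (x y : Fin n → ℝ) : |sgn a x - sgn a y| ≤ starDist x y := by
  have h1 : sgn a x - sgn a y = ∑ i, (if i = a then (x i - y i) else -(x i - y i)) := by
    have : ∀ i, (if i = a then (x i - y i) else -(x i - y i))
        = (if i = a then 2 * (x i - y i) else 0) - (x i - y i) := by
      intro i; split_ifs <;> ring
    simp only [this, Finset.sum_sub_distrib, Finset.sum_ite_eq', Finset.mem_univ, if_true, sgn]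
    ring
  rw [h1]
  refine (Finset.abs_sum_le_sum_abs _ _).trans (Finset.sum_le_sum fun i _ => ?_)
  split_ifs
  · exact le_rfl
  · rw [abs_neg]

lemma starDist_comm (x y : Fin n → ℝ) : starDist x y = starDist y x := by
  simp [starDist, abs_sub_comm]

lemma starDist_nonneg (x y : Fin n → ℝ) : 0 ≤ starDist x y :=
  Finset.sum_nonneg fun _ _ => abs_nonneg _

lemma starDist_triangle (x y z : Fin n → ℝ) : starDist x z ≤ starDist x y + starDist y z := by
  unfold starDist
  rw [← Finset.sum_add_distrib]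
  exact Finset.sum_le_sum fun i _ => abs_sub_le _ _ _

lemma eq_of_starDist {x y : Fin n → ℝ} (h : starDist x y ≤ 0) : x = y := by
  funext i
  have h1 : |x i - y i| ≤ starDist x y :=
    Finset.single_le_sum (f := fun i => |x i - y i|) (fun _ _ => abs_nonneg _) (Finset.mem_univ i)
  have : |x i - y i| = 0 := le_antisymm (h1.trans h) (abs_nonneg _)
  linarith [abs_eq_zero.1 this]

lemma starDist_single_same (a : Fin n) (r s : ℝ) :
    starDist (Pi.single a r) (Pi.single a s : Fin n → ℝ) = |r - s| := by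
  unfold starDist
  rw [Finset.sum_eq_single a]
  · simp
  · intro b _ hb; simp [Pi.single_eq_of_ne hb]
  · simp

lemma starDist_single_zero (a : Fin n) (r : ℝ) :
    starDist (Pi.single a r) (0 : Fin n → ℝ) = |r| := by
  have := starDist_single_same a r 0
  simpa using this

lemma IsPath.dist_le {w : ℝ} {P : ℝ≥0 → Fin n → ℝ} (h : IsPath w P) (s t : ℝ≥0) :
    starDist (P s) (P t) ≤ w * |(t : ℝ) - s| := by
  rcases le_total s t with hst | hst
  · rw [abs_of_nonneg (by simpa using hst)]; exact h.2 s t hst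
  · rw [starDist_comm, abs_sub_comm, abs_of_nonneg (by simpa using hst)]; exact h.2 t s hst

lemma continuous_of_abs_le {f : ℝ≥0 → ℝ} {K : ℝ} (h : ∀ s t : ℝ≥0, |f s - f t| ≤ K * |(t : ℝ) - s|) :
    Continuous f := by
  refine (LipschitzWith.of_dist_le_mul (K := K.toNNReal) fun s t => ?_).continuous
  rw [Real.dist_eq, NNReal.dist_eq, abs_sub_comm (s : ℝ)]
  exact (h s t).trans (mul_le_mul_of_nonneg_right (Real.le_coe_toNNReal K) (abs_nonneg _))

lemma IsPath.continuous_sgn {w : ℝ} {P : ℝ≥0 → Fin n → ℝ} (h : IsPath w P) (a : Fin n) :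
    Continuous fun t => sgn a (P t) :=
  continuous_of_abs_le fun s t => (sgn_sub_le a _ _).trans (h.dist_le s t)

/-! ### The discrete game on infinite sequences -/

def payN : ℕ → (ℕ → Option (Fin n)) → (ℕ → Fin n) → ℕ
  | 0, _, _ => 0
  | L + 1, A, h =>
      if A 0 = some (h 0) then 1
      else if h 1 ≠ h 0 ∧ (A 0 = none ∨ A 0 = some (h 1)) then 2
      else 2 + payN L (fun k => A (k + 1)) (fun k => h (k + 1))

lemma pay_eq_payN (L : ℕ) (A : ℕ → Option (Fin n)) (h : ℕ → Fin n) :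
    pay L (fun i => A i) (fun i => h i) = payN L A h := by
  induction L generalizing A h with
  | zero => rfl
  | succ L ih =>
    have := ih (fun k => A (k + 1)) (fun k => h (k + 1))
    simp only [pay, payN]
    rw [← this]
    have e1 : ((1 : Fin (L + 1 + 1)) : ℕ) = 1 := by simp
    simp only [Fin.val_zero, e1]
    rfl

def Hit (A : ℕ → Option (Fin n)) (h : ℕ → Fin n) (τ : ℕ) : Prop :=
  (∃ k, τ = 2 * k + 1 ∧ A k = some (h k)) ∨
    (∃ k, τ = 2 * k + 2 ∧ h (k + 1) ≠ h k ∧ (A k = none ∨ A k = some (h (k + 1))))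

lemma payN_le (L : ℕ) (A : ℕ → Option (Fin n)) (h : ℕ → Fin n) : payN L A h ≤ 2 * L := by
  induction L generalizing A h with
  | zero => simp [payN]
  | succ L ih =>
    have := ih (fun k => A (k + 1)) (fun k => h (k + 1))
    simp only [payN]
    split_ifs <;> omega

lemma hit_of_payN_lt (L : ℕ) (A : ℕ → Option (Fin n)) (h : ℕ → Fin n)
    (hlt : payN L A h < 2 * L) : Hit A h (payN L A h) := by
  induction L generalizing A h with
  | zero => simp at hlt
  | succ L ih =>
    have := ih (fun k => A (k + 1)) (fun k => h (k + 1))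
    simp only [payN] at hlt ⊢
    split_ifs at hlt ⊢ with h1 h2
    · exact Or.inl ⟨0, rfl, h1⟩
    · exact Or.inr ⟨0, rfl, h2⟩
    · rcases this (by omega) with ⟨k, hk, hA⟩ | ⟨k, hk, hA⟩
      · exact Or.inl ⟨k + 1, by omega, hA⟩
      · exact Or.inr ⟨k + 1, by omega, hA⟩

lemma payN_le_of_hit (L : ℕ) (A : ℕ → Option (Fin n)) (h : ℕ → Fin n) (τ : ℕ)
    (hτ : Hit A h τ) : payN L A h ≤ τ := by
  induction L generalizing A h τ with
  | zero => simp [payN]
  | succ L ih =>
    simp only [payN]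
    split_ifs with h1 h2
    · rcases hτ with ⟨k, hk, -⟩ | ⟨k, hk, -⟩ <;> omega
    · rcases hτ with ⟨k, hk, hA⟩ | ⟨k, hk, -⟩
      · rcases k with _ | k
        · exact absurd hA h1
        · omega
      · omega
    · rcases hτ with ⟨k, hk, hA⟩ | ⟨k, hk, hA⟩
      · rcases k with _ | k
        · exact absurd hA h1
        · have := ih (fun k => A (k + 1)) (fun k => h (k + 1)) (2 * k + 1) (Or.inl ⟨k, rfl, hA⟩)
          omega
      · rcases k with _ | k
        · exact absurd hA h2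
        · have := ih (fun k => A (k + 1)) (fun k => h (k + 1)) (2 * k + 2) (Or.inr ⟨k, rfl, hA⟩)
          omega

/-! ### Minimax for finite matrix games -/

theorem matrix_minimax {I J : Type} [Fintype I] [Fintype J] [Nonempty I] [Nonempty J]
    (M : I → J → ℝ) :
    (∃ a ∈ stdSimplex ℝ I, ∀ j, ∑ i, a i * M i j ≤
        ⨅ x : stdSimplex ℝ I, ⨆ j, ∑ i, x.1 i * M i j) ∧
    (∃ b ∈ stdSimplex ℝ J, ∀ i, (⨅ x : stdSimplex ℝ I, ⨆ j, ∑ i, x.1 i * M i j) ≤
        ∑ j, b j * M i j) := by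
  classical
  let f : (I → ℝ) → (J → ℝ) → ℝ := fun x y => ∑ i, ∑ j, x i * y j * M i j
  have hc1 : ∀ y, Continuous fun x => f x y := fun y => by simp only [f]; fun_prop
  have hc2 : ∀ x, Continuous fun y => f x y := fun x => by simp only [f]; fun_prop
  have hl1 : ∀ y, ConvexOn ℝ (stdSimplex ℝ I) fun x => f x y := fun y => by
    refine ⟨convex_stdSimplex ℝ I, fun x _ x' _ s t _ _ _ => le_of_eq ?_⟩
    simp only [f, Pi.add_apply, Pi.smul_apply, smul_eq_mul, Finset.mul_sum,
      ← Finset.sum_add_distrib]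
    exact Finset.sum_congr rfl fun i _ => Finset.sum_congr rfl fun j _ => by ring
  have hl2 : ∀ x, ConcaveOn ℝ (stdSimplex ℝ J) fun y => f x y := fun x => by
    refine ⟨convex_stdSimplex ℝ J, fun y _ y' _ s t _ _ _ => le_of_eq ?_⟩
    simp only [f, Pi.add_apply, Pi.smul_apply, smul_eq_mul, Finset.mul_sum,
      ← Finset.sum_add_distrib]
    exact Finset.sum_congr rfl fun i _ => Finset.sum_congr rfl fun j _ => by ring
  have neI : (stdSimplex ℝ I).Nonempty :=
    ⟨_, single_mem_stdSimplex ℝ (Classical.arbitrary I)⟩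
  have neJ : (stdSimplex ℝ J).Nonempty :=
    ⟨_, single_mem_stdSimplex ℝ (Classical.arbitrary J)⟩
  obtain ⟨a, ha, b, hb, hab⟩ := Sion.exists_isSaddlePointOn (f := f) neI (convex_stdSimplex ℝ I)
    (isCompact_stdSimplex ℝ I) (fun y _ => (hc1 y).lowerSemicontinuous.lowerSemicontinuousOn _)
    (fun y _ => (hl1 y).quasiconvexOn) (convex_stdSimplex ℝ J) neJ (isCompact_stdSimplex ℝ J)
    (fun x _ => (hc2 x).upperSemicontinuous.upperSemicontinuousOn _)
    (fun x _ => (hl2 x).quasiconcaveOn)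
  have hsad : ∀ x ∈ stdSimplex ℝ I, ∀ y ∈ stdSimplex ℝ J, f a y ≤ f x b := hab
  have e1 : ∀ x j, f x (Pi.single j 1) = ∑ i, x i * M i j := fun x j => by
    refine Finset.sum_congr rfl fun i _ => ?_
    rw [Finset.sum_eq_single j]
    · simp
    · intro k _ hk; simp [Pi.single_eq_of_ne hk]
    · simp
  have e2 : ∀ y i, f (Pi.single i 1) y = ∑ j, y j * M i j := fun y i => by
    simp only [f]
    rw [Finset.sum_eq_single i]
    · simp
    · intro k _ hk; simp [Pi.single_eq_of_ne hk]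
    · simp
  have e3 : ∀ x : I → ℝ, f x b ≤ ⨆ j, ∑ i, x i * M i j := fun x => by
    have : f x b = ∑ j, b j * ∑ i, x i * M i j := by
      simp only [f]
      rw [Finset.sum_comm]
      refine Finset.sum_congr rfl fun j _ => ?_
      rw [Finset.mul_sum]
      exact Finset.sum_congr rfl fun i _ => by ring
    rw [this]
    calc ∑ j, b j * ∑ i, x i * M i j ≤ ∑ j, b j * ⨆ j, ∑ i, x i * M i j :=
          Finset.sum_le_sum fun j _ => mul_le_mul_of_nonneg_left
            (le_ciSup (f := fun j => ∑ i, x i * M i j) (Set.finite_range _).bddAbove j) (hb.1 j)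
      _ = _ := by rw [← Finset.sum_mul, hb.2, one_mul]
  haveI : Nonempty (stdSimplex ℝ I) := neI.to_subtype
  have lo : f a b ≤ ⨅ x : stdSimplex ℝ I, ⨆ j, ∑ i, x.1 i * M i j :=
    le_ciInf fun x => (hsad x.1 x.2 b hb).trans (e3 x.1)
  have hi : (⨅ x : stdSimplex ℝ I, ⨆ j, ∑ i, x.1 i * M i j) ≤ f a b := by
    refine (ciInf_le ⟨f a b, ?_⟩ (⟨a, ha⟩ : stdSimplex ℝ I)).trans (ciSup_le fun j => ?_)
    · rintro _ ⟨x, rfl⟩
      exact (hsad x.1 x.2 b hb).trans (e3 x.1)
    · rw [← e1]; exact hsad a ha _ (single_mem_stdSimplex ℝ j)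
  refine ⟨⟨a, ha, fun j => ?_⟩, ⟨b, hb, fun i => ?_⟩⟩
  · rw [← e1]; exact (hsad a ha _ (single_mem_stdSimplex ℝ j)).trans lo
  · rw [← e2]; exact hi.trans (hsad _ (single_mem_stdSimplex ℝ i) b hb)

end Pool.Agent.Lib.MP_dff026_lc
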