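import Mathlib

open MeasureTheory
open scoped NNReal ENNReal

namespace Pool.Agent.Lib.MP_dff026_lc

/-- The star with `n` unit arcs: the points `r * e_i`, `0 ≤ r ≤ 1`; the centre is `0`. -/
def InStar {n : ℕ} (x : Fin n → ℝ) : Prop :=
  ∃ (i : Fin n) (r : ℝ), 0 ≤ r ∧ r ≤ 1 ∧ x = Pi.single i r

/-- The l1 distance; on the star it is the shortest-path metric. -/
def starDist {n : ℕ} (x y : Fin n → ℝ) : ℝ := ∑ i, |x i - y i|

/-- A path in the star of speed at most `w`. -/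
def IsPath {n : ℕ} (w : ℝ) (P : ℝ≥0 → Fin n → ℝ) : Prop :=
  (∀ t, InStar (P t)) ∧ ∀ s t : ℝ≥0, s ≤ t → starDist (P s) (P t) ≤ w * ((t : ℝ) - (s : ℝ))

/-- Pure searcher strategies. -/
abbrev SPath (n : ℕ) : Type := {S : ℝ≥0 → Fin n → ℝ // IsPath 1 S ∧ S 0 = 0}

/-- Pure hider strategies. -/
abbrev HPath (n : ℕ) (w : ℝ) : Type := {H : ℝ≥0 → Fin n → ℝ // IsPath w H}

/-- Capture time. -/
noncomputable def capTime {n : ℕ} (S H : ℝ≥0 → Fin n → ℝ) : ℝ≥0∞ :=
  ⨅ (t : ℝ≥0) (_ : S t = H t), (t : ℝ≥0∞)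

/-- Expected capture time for a pair of mixed strategies. -/
noncomputable def payoff {n : ℕ} {w : ℝ} (μ : Measure (SPath n)) (ν : Measure (HPath n w)) :
    ℝ≥0∞ :=
  ∫⁻ p, capTime p.1.1 p.2.1 ∂(μ.prod ν)

/-- The minimax value. -/
noncomputable def upperValue (n : ℕ) (w : ℝ) : ℝ≥0∞ :=
  ⨅ (μ : Measure (SPath n)) (_ : IsProbabilityMeasure μ),
    ⨆ (ν : Measure (HPath n w)) (_ : IsProbabilityMeasure ν), payoff μ ν

/-- The maximin value. -/
noncomputable def lowerValue (n : ℕ) (w : ℝ) : ℝ≥0∞ :=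
  ⨆ (ν : Measure (HPath n w)) (_ : IsProbabilityMeasure ν),
    ⨅ (μ : Measure (SPath n)) (_ : IsProbabilityMeasure μ), payoff μ ν

/-- Payoff matrix of the `L`-round game. In each round the searcher ambushes (`none`) or sweeps
one arc (`some a`); `h k` is the arc of the hider at the start of round `k`. -/
def pay {n : ℕ} : (L : ℕ) → (Fin L → Option (Fin n)) → (Fin (L + 1) → Fin n) → ℕ
  | 0, _, _ => 0
  | L + 1, A, h =>
      if A 0 = some (h 0) then 1
      else if h 1 ≠ h 0 ∧ (A 0 = none ∨ A 0 = some (h 1)) then 2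
      else 2 + pay L (Fin.tail A) (Fin.tail h)

/-- Value of the finite matrix game `pay L`. -/
noncomputable def matVal (n L : ℕ) : ℝ :=
  ⨅ x : stdSimplex ℝ (Fin L → Option (Fin n)),
    ⨆ h : Fin (L + 1) → Fin n, ∑ A, x.1 A * (pay L A h : ℝ)

/-- The searcher path that in round `k` (time `2k` to `2k+2`) waits at the centre if
`A k = none` and runs to the end of arc `a` and back if `A k = some a`. -/
noncomputable def roundPath {n : ℕ} (A : ℕ → Option (Fin n)) (t : ℝ≥0) : Fin n → ℝ :=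
  match A ⌊(t : ℝ) / 2⌋₊ with
  | none => 0
  | some a => Pi.single a (1 - |(t : ℝ) - 2 * (⌊(t : ℝ) / 2⌋₊ : ℝ) - 1|)

/-- Follow `A` in the first `L` rounds and sweep the arcs `B k` afterwards. -/
def splice {n : ℕ} (L : ℕ) (A : Fin L → Option (Fin n)) (B : ℕ → Fin n) (k : ℕ) :
    Option (Fin n) :=
  if hk : k < L then A ⟨k, hk⟩ else some (B k)

/-- Law of the searcher path: first `L` rounds drawn from `x`, then independent uniform arcs. -/
noncomputable def stratLaw (n L : ℕ) (x : (Fin L → Option (Fin n)) → ℝ) :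
    Measure (ℝ≥0 → Fin n → ℝ) :=
  ∑ A, ENNReal.ofReal (x A) •
    (Measure.infinitePi fun _ : ℕ => ProbabilityTheory.uniformOn (Set.univ : Set (Fin n))).map
      fun B => roundPath (splice L A B)

end Pool.Agent.Lib.MP_dff026_lc
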