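import Pool.Agent.Lib.MP_dff026_lc.Upper

open MeasureTheory
open scoped NNReal ENNReal

namespace Pool.Agent.Lib.MP_dff026_lc

variable {n : ℕ}

/-- crossing times -/
def tau (ρ θ : ℝ) (k : ℕ) : ℝ := k * ρ - θ

noncomputable def idx (ρ θ : ℝ) (t : ℝ) : ℕ := ⌊(t + θ) / ρ⌋₊

noncomputable def rad (ρ θ : ℝ) (L : ℕ) (h : ℕ → Fin n) (t : ℝ) : ℝ :=
  (Finset.range (L + 1)).inf' ⟨0, by simp⟩ fun j =>
    if h (j + 1) ≠ h j then min 1 |t - tau ρ θ (j + 1)| else 1

noncomputable def hpath (ρ θ : ℝ) (L : ℕ) (h : ℕ → Fin n) (t : ℝ≥0) : Fin n → ℝ :=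
  Pi.single (h (idx ρ θ t)) (rad ρ θ L h t)

lemma rad_cases (ρ θ : ℝ) (L : ℕ) (h : ℕ → Fin n) (t : ℝ) :
    rad ρ θ L h t = 1 ∨ ∃ j, h (j + 1) ≠ h j ∧ rad ρ θ L h t = |t - tau ρ θ (j + 1)| := by
  obtain ⟨j, -, hj⟩ := Finset.exists_mem_eq_inf' (s := Finset.range (L + 1)) ⟨0, by simp⟩
    fun j => if h (j + 1) ≠ h j then min 1 |t - tau ρ θ (j + 1)| else 1
  unfold rad
  rw [hj]
  split_ifs with h1
  · rcases min_choice 1 |t - tau ρ θ (j + 1)| with h2 | h2
    · exact Or.inl h2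
    · exact Or.inr ⟨j, h1, h2⟩
  · exact Or.inl rfl

lemma rad_nonneg (ρ θ : ℝ) (L : ℕ) (h : ℕ → Fin n) (t : ℝ) : 0 ≤ rad ρ θ L h t := by
  rcases rad_cases ρ θ L h t with h1 | ⟨j, -, h1⟩ <;> rw [h1]
  · exact zero_le_one
  · exact abs_nonneg _

lemma rad_le_one (ρ θ : ℝ) (L : ℕ) (h : ℕ → Fin n) (t : ℝ) : rad ρ θ L h t ≤ 1 := by
  refine (Finset.inf'_le _ (Finset.mem_range.2 (Nat.succ_pos L))).trans ?_
  split_ifs
  · exact min_le_left _ _
  · exact le_rfl

lemma rad_le_move (ρ θ : ℝ) (L : ℕ) (h : ℕ → Fin n) (t : ℝ) {j : ℕ} (hj : j ≤ L)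
    (hm : h (j + 1) ≠ h j) : rad ρ θ L h t ≤ |t - tau ρ θ (j + 1)| := by
  refine (Finset.inf'_le _ (Finset.mem_range.2 (Nat.lt_succ_of_le hj))).trans ?_
  rw [if_pos hm]
  exact min_le_right _ _

lemma rad_le_add (ρ θ : ℝ) (L : ℕ) (h : ℕ → Fin n) (s t : ℝ) :
    rad ρ θ L h s ≤ rad ρ θ L h t + |s - t| := by
  obtain ⟨j, hj1, hj⟩ := Finset.exists_mem_eq_inf' (s := Finset.range (L + 1)) ⟨0, by simp⟩
    fun j => if h (j + 1) ≠ h j then min 1 |t - tau ρ θ (j + 1)| else 1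
  have e : rad ρ θ L h t = _ := hj
  rw [e]
  have a1 := rad_le_one ρ θ L h s
  have a0 := abs_nonneg (s - t)
  split_ifs with h1
  · have a2 := rad_le_move ρ θ L h s (Nat.lt_succ_iff.1 (Finset.mem_range.1 hj1)) h1
    have a3 := abs_sub_le s t (tau ρ θ (j + 1))
    rcases min_choice 1 |t - tau ρ θ (j + 1)| with h2 | h2 <;> rw [h2] <;> linarith
  · linarith

lemma idx_spec {ρ θ t : ℝ} (hρ : 0 < ρ) (ht : 0 ≤ t + θ) :
    tau ρ θ (idx ρ θ t) ≤ t ∧ t < tau ρ θ (idx ρ θ t + 1) := by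
  have h1 := Nat.floor_le (a := (t + θ) / ρ) (by positivity)
  have h2 := Nat.lt_floor_add_one ((t + θ) / ρ)
  rw [le_div_iff₀ hρ] at h1
  rw [div_lt_iff₀ hρ] at h2
  unfold tau idx
  push_cast
  constructor <;> linarith

lemma tau_mono {ρ : ℝ} (hρ : 0 < ρ) (θ : ℝ) {j k : ℕ} (h : j ≤ k) : tau ρ θ j ≤ tau ρ θ k := by
  unfold tau
  have : (j : ℝ) ≤ k := by exact_mod_cast h
  nlinarith

lemma tau_le_iff {ρ : ℝ} (hρ : 0 < ρ) (θ : ℝ) {j k : ℕ} (h : tau ρ θ j ≤ tau ρ θ k) : j ≤ k := by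
  unfold tau at h
  have : (j : ℝ) ≤ k := by
    by_contra h2
    push Not at h2
    nlinarith
  exact_mod_cast this

lemma exists_move (h : ℕ → Fin n) {a b : ℕ} (hab : a ≤ b) (hne : h a ≠ h b) :
    ∃ j, a ≤ j ∧ j < b ∧ h (j + 1) ≠ h j := by
  induction b, hab using Nat.le_induction with
  | base => exact absurd rfl hne
  | succ b hab ih =>
    by_cases hb : h (b + 1) = h b
    · obtain ⟨j, h1, h2, h3⟩ := ih (by rw [← hb]; exact hne)
      exact ⟨j, h1, by omega, h3⟩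
    · exact ⟨b, hab, by omega, hb⟩

lemma hpath_ok {ρ θ w : ℝ} (hρ : 0 < ρ) (hθ : 0 ≤ θ) (hw : 1 ≤ w) (L : ℕ) (h : ℕ → Fin n)
    (hc : ∀ j, L ≤ j → h (j + 1) = h j) : IsPath w (hpath ρ θ L h) := by
  refine ⟨fun t => ⟨_, _, rad_nonneg ρ θ L h t, rad_le_one ρ θ L h t, rfl⟩, fun s t hst => ?_⟩
  have hst' : (s : ℝ) ≤ t := hst
  refine le_trans ?_ (le_mul_of_one_le_left (by linarith) hw)
  unfold hpath
  by_cases he : h (idx ρ θ s) = h (idx ρ θ t)
  · rw [he, starDist_single_same, abs_le]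
    have a1 := rad_le_add ρ θ L h s t
    have a2 := rad_le_add ρ θ L h t s
    rw [abs_of_nonpos (by linarith)] at a1
    rw [abs_of_nonneg (by linarith)] at a2
    constructor <;> linarith
  · have hle : idx ρ θ s ≤ idx ρ θ t := Nat.floor_le_floor (by gcongr)
    obtain ⟨j, h1, h2, h3⟩ := exists_move h hle he
    have hj : j ≤ L := by
      by_contra h4
      exact h3 (hc j (by omega))
    have a1 := rad_le_move ρ θ L h s hj h3
    have a2 := rad_le_move ρ θ L h t hj h3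
    have b1 := (idx_spec (t := s) hρ (by positivity : (0 : ℝ) ≤ s + θ)).2
    have b2 := (idx_spec (t := t) hρ (by positivity : (0 : ℝ) ≤ t + θ)).1
    have b3 := tau_mono hρ θ (show idx ρ θ s + 1 ≤ j + 1 by omega)
    have b4 := tau_mono hρ θ (show j + 1 ≤ idx ρ θ t by omega)
    rw [abs_of_nonpos (by linarith)] at a1
    rw [abs_of_nonneg (by linarith)] at a2
    refine (starDist_triangle _ 0 _).trans ?_
    rw [starDist_comm 0, starDist_single_zero, starDist_single_zero,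
      abs_of_nonneg (rad_nonneg _ _ _ _ _), abs_of_nonneg (rad_nonneg _ _ _ _ _)]
    linarith

open Classical in
/-- the action read off a searcher position -/
noncomputable def actOf (hn : 0 < n) (x : Fin n → ℝ) : Option (Fin n) :=
  if x = 0 then none else some (arcOf hn x)

noncomputable def actSeq (hn : 0 < n) (S : ℝ≥0 → Fin n → ℝ) (ρ θ : ℝ) (k : ℕ) : Option (Fin n) :=
  actOf hn (S (tau ρ θ (k + 1)).toNNReal)

lemma actOf_pos (hn : 0 < n) {x : Fin n → ℝ} (hx : InStar x) {a : Fin n} (h : 0 < sgn a x) :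
    actOf hn x = some a := by
  unfold actOf
  rw [if_neg, arcOf_of_pos hn hx h]
  rintro rfl
  simp [sgn_zero] at h

lemma eq_zero_of_sgn {x : Fin n → ℝ} (hx : InStar x) {a : Fin n} (h : sgn a x = 0) : x = 0 := by
  rw [eq_of_sgn hx h.ge, h]; simp

lemma actOf_zero (hn : 0 < n) : actOf hn (0 : Fin n → ℝ) = none := by simp [actOf]

/-- the main combinatorial estimate -/
theorem payN_le_meet (hn : 0 < n) {S : ℝ≥0 → Fin n → ℝ} (hS : IsPath 1 S) (hS0 : S 0 = 0)
    {e θ : ℝ} (he : 0 < e) (he1 : e ≤ 1 / 2) (hθ : 0 ≤ θ) (hθe : θ ≤ e) (L : ℕ) (h : ℕ → Fin n)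
    (T : ℝ≥0) (hT : S T = hpath (2 - e) θ L h T) :
    (payN L (actSeq hn S (2 - e) θ) h : ℝ) ≤ T + (L + 2) * e ∨
      ((payN L (actSeq hn S (2 - e) θ) h : ℝ) ≤ T + (L + 2) * e + 1 ∧
        ∃ k < L, S (tau (2 - e) θ (k + 1)).toNNReal = 0 ∧
          ∀ t : ℝ≥0, tau (2 - e) θ (k + 1) - e ≤ t → t < tau (2 - e) θ (k + 1) → S t ≠ 0) := by
  have hρ : (0 : ℝ) < 2 - e := by linarith
  obtain ⟨k, hk⟩ : ∃ k, k = idx (2 - e) θ T := ⟨_, rfl⟩
  obtain ⟨r, hr⟩ : ∃ r, r = rad (2 - e) θ L h T := ⟨_, rfl⟩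
  obtain ⟨i1, i2⟩ := idx_spec (t := T) hρ (by positivity : (0 : ℝ) ≤ T + θ)
  rw [← hk] at i1 i2
  have hL0 : (0 : ℝ) ≤ L := Nat.cast_nonneg L
  have htau : ∀ j : ℕ, tau (2 - e) θ j = 2 * j - j * e - θ := fun j => by unfold tau; ring
  have htpos : ∀ j : ℕ, 0 ≤ tau (2 - e) θ (j + 1) := fun j => by
    have := tau_mono hρ θ (show 1 ≤ j + 1 by omega)
    rw [htau 1] at this
    push_cast at this
    linarith
  have hcoe : ∀ j : ℕ, (((tau (2 - e) θ (j + 1)).toNNReal : ℝ≥0) : ℝ) = tau (2 - e) θ (j + 1) :=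
    fun j => Real.coe_toNNReal _ (htpos j)
  by_cases hkL : L ≤ k
  · left
    have a1 : (payN L (actSeq hn S (2 - e) θ) h : ℝ) ≤ 2 * L := by exact_mod_cast payN_le L _ _
    have a2 := tau_mono hρ θ hkL
    rw [htau L] at a2
    linarith
  have hkL' : (k : ℝ) + 1 ≤ L := by exact_mod_cast (by omega : k + 1 ≤ L)
  have hke : (k : ℝ) * e + e ≤ L * e := by nlinarith
  have hST : sgn (h k) (S T) = r := by
    rw [hT, hpath, ← hk, ← hr, sgn_single_self]
  have lip : ∀ t : ℝ≥0, r - |(t : ℝ) - T| ≤ sgn (h k) (S t) := fun t => by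
    have := (sgn_sub_le (h k) _ _).trans (hS.dist_le T t)
    rw [hST, one_mul] at this
    linarith [(abs_le.1 this).2]
  have hr0 : 0 ≤ r := hr ▸ rad_nonneg _ _ _ _ _
  have hr1 : r ≤ 1 := hr ▸ rad_le_one _ _ _ _ _
  have fin : ∀ τ : ℕ, Hit (actSeq hn S (2 - e) θ) h τ →
      (payN L (actSeq hn S (2 - e) θ) h : ℝ) ≤ τ := fun τ hτ => by
    exact_mod_cast payN_le_of_hit L _ _ τ hτ
  -- looking back
  have back : (payN L (actSeq hn S (2 - e) θ) h : ℝ) ≤ 2 * k ∨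
      (r ≤ T - tau (2 - e) θ k ∧ ∀ j, j + 1 ≤ k → h (j + 1) ≠ h j →
        r ≠ |(T : ℝ) - tau (2 - e) θ (j + 1)|) := by
    rcases k with _ | m
    · right
      refine ⟨?_, fun j hj => absurd hj (by omega)⟩
      have := lip 0
      rw [hS0, sgn_zero] at this
      simp only [NNReal.coe_zero, zero_sub, abs_neg, NNReal.abs_eq] at this
      rw [htau]; simp; linarith
    · have l1 := lip (tau (2 - e) θ (m + 1)).toNNReal
      rw [hcoe, abs_of_nonpos (by linarith)] at l1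
      by_cases hp : 0 < sgn (h (m + 1)) (S (tau (2 - e) θ (m + 1)).toNNReal)
      · left
        have hA : actSeq hn S (2 - e) θ m = some (h (m + 1)) := actOf_pos hn (hS.1 _) hp
        by_cases hm : h (m + 1) = h m
        · have := fin (2 * m + 1) (Or.inl ⟨m, rfl, by rw [hA, hm]⟩)
          push_cast at this ⊢; linarith
        · have := fin (2 * m + 2) (Or.inr ⟨m, rfl, hm, Or.inr hA⟩)
          push_cast at this ⊢; linarith
      · push Not at hp
        by_cases hex : ∃ j, j + 1 ≤ m + 1 ∧ h (j + 1) ≠ h j ∧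
            r = |(T : ℝ) - tau (2 - e) θ (j + 1)|
        · left
          obtain ⟨j, hj1, hj2, hj3⟩ := hex
          have b1 := tau_mono hρ θ hj1
          rw [abs_of_nonneg (by linarith)] at hj3
          have b2 : m + 1 ≤ j + 1 := tau_le_iff hρ θ (by linarith)
          obtain rfl : j = m := by omega
          have b3 : S (tau (2 - e) θ (j + 1)).toNNReal = 0 :=
            eq_zero_of_sgn (hS.1 _) (a := h (j + 1)) (by linarith)
          have hA : actSeq hn S (2 - e) θ j = none := by rw [actSeq, b3, actOf_zero]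
          have := fin (2 * j + 2) (Or.inr ⟨j, rfl, hj2, Or.inl hA⟩)
          push_cast at this ⊢; linarith
        · right
          refine ⟨by linarith, fun j hj hj2 hj3 => hex ⟨j, hj, hj2, hj3⟩⟩
  have tk := htau k
  have tk1 := htau (k + 1)
  push_cast at tk1
  rcases back with back | ⟨bk1, bk2⟩
  · left; linarith
  have fwd : r = 1 ∨ ∃ j, k ≤ j ∧ h (j + 1) ≠ h j ∧ r = tau (2 - e) θ (j + 1) - T := by
    rcases rad_cases (2 - e) θ L h T with h1 | ⟨j, h1, h2⟩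
    · exact Or.inl (hr.trans h1)
    · right
      rw [← hr] at h2
      have hj : k ≤ j := by
        by_contra h3
        exact bk2 j (by omega) h1 h2
      have := tau_mono hρ θ (show k + 1 ≤ j + 1 by omega)
      rw [abs_of_nonpos (by linarith)] at h2
      exact ⟨j, hj, h1, by linarith⟩
  have l1 := lip (tau (2 - e) θ (k + 1)).toNNReal
  rw [hcoe, abs_of_nonneg (by linarith)] at l1
  by_cases hp : 0 < sgn (h k) (S (tau (2 - e) θ (k + 1)).toNNReal)
  · left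
    have hA : actSeq hn S (2 - e) θ k = some (h k) := actOf_pos hn (hS.1 _) hp
    have := fin (2 * k + 1) (Or.inl ⟨k, rfl, hA⟩)
    push_cast at this
    rcases fwd with h1 | ⟨j, h1, h2, h3⟩
    · linarith
    · have := tau_mono hρ θ (show k + 1 ≤ j + 1 by omega)
      linarith
  · push Not at hp
    rcases fwd with h1 | ⟨j, h1, h2, h3⟩
    · exfalso; linarith
    · have b1 := tau_mono hρ θ (show k + 1 ≤ j + 1 by omega)
      have b2 : j + 1 ≤ k + 1 := tau_le_iff hρ θ (by linarith)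
      obtain rfl : j = k := by omega
      have b3 : S (tau (2 - e) θ (j + 1)).toNNReal = 0 :=
        eq_zero_of_sgn (hS.1 _) (a := h j) (by linarith)
      have hA : actSeq hn S (2 - e) θ j = none := by rw [actSeq, b3, actOf_zero]
      have := fin (2 * j + 2) (Or.inr ⟨j, rfl, h2, Or.inl hA⟩)
      push_cast at this
      by_cases hre : r ≤ e
      · left; linarith
      · right
        refine ⟨by linarith, j, by omega, b3, fun t ht1 ht2 h0 => ?_⟩
        have l2 := lip t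
        rw [h0, sgn_zero, abs_of_nonneg (by linarith)] at l2
        linarith

end Pool.Agent.Lib.MP_dff026_lc
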