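import Pool.Agent.Lib.MP_dff026_lc.Strat
import Pool.Agent.Lib.MP_dff026_lc.Lower

open MeasureTheory
open scoped NNReal ENNReal

namespace Pool.Agent.Lib.MP_dff026_lc

variable {n : ℕ}

def extH (L : ℕ) (h : Fin (L + 1) → Fin n) (k : ℕ) : Fin n := h ⟨min k L, by omega⟩

lemma extH_const (L : ℕ) (h : Fin (L + 1) → Fin n) (j : ℕ) (hj : L ≤ j) :
    extH L h (j + 1) = extH L h j := by
  unfold extH
  congr 2
  omega

lemma extH_restrict (L : ℕ) (h : Fin (L + 1) → Fin n) : (fun i : Fin (L + 1) => extH L h i) = h := by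
  funext i
  unfold extH
  congr 1
  ext
  have := i.2
  simp only
  omega

/-- shift number `j` -/
noncomputable def shiftT (N j : ℕ) : ℝ := j / (N : ℝ) ^ 2

def Bad (S : ℝ≥0 → Fin n → ℝ) (N k j : ℕ) : Prop :=
  S (tau (2 - 1 / N) (shiftT N j) (k + 1)).toNNReal = 0 ∧
    ∀ t : ℝ≥0, tau (2 - 1 / N) (shiftT N j) (k + 1) - 1 / N ≤ t →
      t < tau (2 - 1 / N) (shiftT N j) (k + 1) → S t ≠ 0

lemma shiftT_bounds {N j : ℕ} (hN : 2 ≤ N) (hj : j < N) :
    0 ≤ shiftT N j ∧ shiftT N j ≤ 1 / N := by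
  have hN' : (0 : ℝ) < N := by exact_mod_cast (by omega : 0 < N)
  have hj' : (j : ℝ) ≤ N := by exact_mod_cast hj.le
  refine ⟨by unfold shiftT; positivity, ?_⟩
  unfold shiftT
  rw [div_le_div_iff₀ (by positivity) hN']
  nlinarith

lemma inv_bounds {N : ℕ} (hN : 2 ≤ N) : (0 : ℝ) < 1 / N ∧ (1 : ℝ) / N ≤ 1 / 2 := by
  have hN' : (2 : ℝ) ≤ N := by exact_mod_cast hN
  exact ⟨by positivity, one_div_le_one_div_of_le (by norm_num) hN'⟩

lemma bad_unique (S : ℝ≥0 → Fin n → ℝ) {N : ℕ} (hN : 2 ≤ N) (k : ℕ) {j j' : ℕ} (hj : j < j')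
    (hj' : j' < N) (h1 : Bad S N k j) (h2 : Bad S N k j') : False := by
  obtain ⟨a1, a2⟩ := shiftT_bounds hN (hj.trans hj')
  obtain ⟨b1, b2⟩ := shiftT_bounds hN hj'
  obtain ⟨c1, c2⟩ := inv_bounds hN
  have hlt : shiftT N j < shiftT N j' := by
    unfold shiftT
    have hN' : (0 : ℝ) < N := by exact_mod_cast (by omega : 0 < N)
    gcongr
  have hpos : 0 ≤ tau (2 - 1 / N) (shiftT N j') (k + 1) := by
    have := tau_mono (ρ := 2 - 1 / N) (by linarith) (shiftT N j') (show 1 ≤ k + 1 by omega)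
    unfold tau at this ⊢
    push_cast at this ⊢
    linarith
  refine h1.2 _ ?_ ?_ h2.1
  · rw [Real.coe_toNNReal _ hpos]; unfold tau; linarith
  · rw [Real.coe_toNNReal _ hpos]; unfold tau; linarith

open Classical in
lemma sum_bad_le (S : ℝ≥0 → Fin n → ℝ) {N : ℕ} (hN : 2 ≤ N) (L : ℕ) :
    ∑ j ∈ Finset.range N, (if ∃ k < L, Bad S N k j then (1 : ℝ) else 0) ≤ L := by
  calc _ ≤ ∑ j ∈ Finset.range N, ∑ k ∈ Finset.range L, (if Bad S N k j then (1 : ℝ) else 0) := by
        refine Finset.sum_le_sum fun j _ => ?_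
        split_ifs with h
        · obtain ⟨k, hk, hb⟩ := h
          have := Finset.single_le_sum (f := fun k => if Bad S N k j then (1 : ℝ) else 0)
            (fun k _ => by positivity) (Finset.mem_range.2 hk)
          simpa [hb] using this
        · exact Finset.sum_nonneg fun k _ => by positivity
    _ = ∑ k ∈ Finset.range L, ∑ j ∈ Finset.range N, (if Bad S N k j then (1 : ℝ) else 0) :=
        Finset.sum_comm
    _ ≤ ∑ k ∈ Finset.range L, (1 : ℝ) := by
        refine Finset.sum_le_sum fun k _ => ?_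
        rw [Finset.sum_boole]
        have : ((Finset.range N).filter fun j => Bad S N k j).card ≤ 1 := by
          rw [Finset.card_le_one]
          intro a ha b hb
          simp only [Finset.mem_filter, Finset.mem_range] at ha hb
          rcases lt_trichotomy a b with h | h | h
          · exact (bad_unique S hN k h hb.1 ha.2 hb.2).elim
          · exact h
          · exact (bad_unique S hN k h ha.1 hb.2 ha.2).elim
        exact_mod_cast this
    _ = L := by simp

noncomputable def toH {w : ℝ} (hw : 1 ≤ w) {N : ℕ} (hN : 2 ≤ N) (L : ℕ)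
    (h : Fin (L + 1) → Fin n) (j : ℕ) : HPath n w :=
  ⟨hpath (2 - 1 / N) (shiftT N j) L (extH L h),
    hpath_ok (by linarith [(inv_bounds hN).2]) (by unfold shiftT; positivity) hw L _
      (extH_const L h)⟩

open Classical in
lemma le_capTime_toH (hn : 0 < n) {w : ℝ} (hw : 1 ≤ w) {N : ℕ} (hN : 2 ≤ N) (L : ℕ)
    (h : Fin (L + 1) → Fin n) {j : ℕ} (hj : j < N) (S : SPath n) :
    ENNReal.ofReal ((pay L (fun i => actSeq hn S.1 (2 - 1 / N) (shiftT N j) i) h : ℝ)
      - (L + 2) * (1 / N) - (if ∃ k < L, Bad S.1 N k j then (1 : ℝ) else 0)) ≤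
      capTime S.1 (toH hw hN L h j).1 := by
  refine le_capTime fun T hT => ?_
  rw [← ENNReal.ofReal_coe_nnreal]
  refine ENNReal.ofReal_le_ofReal ?_
  have e : pay L (fun i => actSeq hn S.1 (2 - 1 / N) (shiftT N j) i) h
      = payN L (actSeq hn S.1 (2 - 1 / N) (shiftT N j)) (extH L h) := by
    rw [← pay_eq_payN, extH_restrict]
  rw [e]
  obtain ⟨a1, a2⟩ := shiftT_bounds hN hj
  obtain ⟨c1, c2⟩ := inv_bounds hN
  rcases payN_le_meet hn S.2.1 S.2.2 c1 c2 a1 a2 L (extH L h) T hT with h1 | ⟨h1, h2⟩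
  · split_ifs <;> linarith
  · have h3 : ∃ k < L, Bad S.1 N k j := h2
    rw [if_pos h3]; linarith

noncomputable def stratH {w : ℝ} (hw : 1 ≤ w) {N : ℕ} (hN : 2 ≤ N) (L : ℕ)
    (y : (Fin (L + 1) → Fin n) → ℝ) : Measure (HPath n w) :=
  ∑ j ∈ Finset.range N, ∑ h, ENNReal.ofReal (y h / N) • Measure.dirac (toH hw hN L h j)

lemma stratH_prob {w : ℝ} (hw : 1 ≤ w) {N : ℕ} (hN : 2 ≤ N) (L : ℕ)
    {y : (Fin (L + 1) → Fin n) → ℝ} (hy : y ∈ stdSimplex ℝ _) :
    IsProbabilityMeasure (stratH hw hN L y) := by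
  have hN' : (0 : ℝ) < N := by exact_mod_cast (by omega : 0 < N)
  constructor
  unfold stratH
  simp only [Measure.finsetSum_apply, Measure.smul_apply, measure_univ, smul_eq_mul, mul_one]
  have : ∑ h, ENNReal.ofReal (y h / N) = ENNReal.ofReal (1 / N) := by
    rw [← ENNReal.ofReal_sum_of_nonneg fun h _ => div_nonneg (hy.1 h) hN'.le, ← Finset.sum_div,
      hy.2]
  simp only [this]
  rw [← ENNReal.ofReal_sum_of_nonneg fun _ _ => by positivity]
  simp [hN'.ne']

lemma ofReal_sum_le {ι : Type} (s : Finset ι) (f : ι → ℝ) :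
    ENNReal.ofReal (∑ i ∈ s, f i) ≤ ∑ i ∈ s, ENNReal.ofReal (f i) := by
  classical
  induction s using Finset.induction_on with
  | empty => simp
  | insert a s ha ih =>
    rw [Finset.sum_insert ha, Finset.sum_insert ha]
    exact ENNReal.ofReal_add_le.trans (by gcongr)

theorem le_payoff_stratH (hn : 0 < n) {w : ℝ} (hw : 1 ≤ w) {N : ℕ} (hN : 2 ≤ N) (L : ℕ)
    {y : (Fin (L + 1) → Fin n) → ℝ} (hy : y ∈ stdSimplex ℝ _) {v : ℝ}
    (hv : ∀ A : Fin L → Option (Fin n), v ≤ ∑ h, y h * (pay L A h : ℝ))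
    (μ : Measure (SPath n)) [IsProbabilityMeasure μ] :
    ENNReal.ofReal (v - (2 * L + 2) / N) ≤ payoff μ (stratH hw hN L y) := by
  classical
  haveI := stratH_prob hw hN L hy
  have hN' : (0 : ℝ) < N := by exact_mod_cast (by omega : 0 < N)
  have hm := measurable_capTime (n := n) (w := w) (by linarith)
  unfold payoff
  rw [lintegral_prod _ hm.aemeasurable]
  refine le_trans ?_ (lintegral_mono (f := fun _ => ENNReal.ofReal (v - (2 * L + 2) / N))
    fun S => ?_)
  · simp
  have hmS : Measurable fun H : HPath n w => capTime S.1 H.1 := hm.comp measurable_prodMk_left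
  unfold stratH
  simp only [lintegral_finsetSum_measure, lintegral_smul_measure, lintegral_dirac' _ hmS,
    smul_eq_mul]
  have hb := sum_bad_le S.1 hN L
  calc ENNReal.ofReal (v - (2 * L + 2) / N)
      ≤ ENNReal.ofReal (∑ j ∈ Finset.range N, ∑ h, y h / N *
        ((pay L (fun i => actSeq hn S.1 (2 - 1 / N) (shiftT N j) i) h : ℝ)
          - (L + 2) * (1 / N) - (if ∃ k < L, Bad S.1 N k j then (1 : ℝ) else 0))) := by
        refine ENNReal.ofReal_le_ofReal ?_
        have h1 : ∀ j ∈ Finset.range N, (v - (L + 2) * (1 / N)) / N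
            - (if ∃ k < L, Bad S.1 N k j then (1 : ℝ) else 0) / N ≤ ∑ h, y h / N *
          ((pay L (fun i => actSeq hn S.1 (2 - 1 / N) (shiftT N j) i) h : ℝ)
            - (L + 2) * (1 / N) - (if ∃ k < L, Bad S.1 N k j then (1 : ℝ) else 0)) := by
          intro j _
          have h2 := hv fun i => actSeq hn S.1 (2 - 1 / N) (shiftT N j) i
          generalize (if ∃ k < L, Bad S.1 N k j then (1 : ℝ) else 0) = b
          have h3 : ∑ h, y h / N *
              ((pay L (fun i => actSeq hn S.1 (2 - 1 / N) (shiftT N j) i) h : ℝ)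
                - (L + 2) * (1 / N) - b) = ((∑ h, y h *
              (pay L (fun i => actSeq hn S.1 (2 - 1 / N) (shiftT N j) i) h : ℝ))
                - (∑ h, y h) * ((L + 2) * (1 / N) + b)) / N := by
            rw [Finset.sum_mul, ← Finset.sum_sub_distrib, Finset.sum_div]
            exact Finset.sum_congr rfl fun h _ => by ring
          rw [h3, hy.2, ← sub_div]
          exact div_le_div_of_nonneg_right (by linarith) hN'.le
        refine le_trans ?_ (Finset.sum_le_sum h1)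
        rw [Finset.sum_sub_distrib, ← Finset.sum_div, ← Finset.sum_div]
        simp only [Finset.sum_const, Finset.card_range, nsmul_eq_mul]
        have h4 : (N : ℝ) * (v - (L + 2) * (1 / N)) / N = v - (L + 2) / N := by field_simp
        have h5 : (2 * (L : ℝ) + 2) / N = (L + 2) / N + L / N := by ring
        rw [h4, h5]
        have h6 := div_le_div_of_nonneg_right hb hN'.le
        linarith
    _ ≤ _ := by
        refine (ofReal_sum_le _ _).trans (Finset.sum_le_sum fun j hj => ?_)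
        refine (ofReal_sum_le _ _).trans (Finset.sum_le_sum fun h _ => ?_)
        rw [ENNReal.ofReal_mul (div_nonneg (hy.1 h) hN'.le)]
        gcongr
        exact le_capTime_toH hn hw hN L h (Finset.mem_range.1 hj) S

theorem matVal_le_lowerValue (hn : 0 < n) {w : ℝ} (hw : 1 ≤ w) (L : ℕ) :
    ENNReal.ofReal (matVal n L) ≤ lowerValue n w := by
  haveI : Nonempty (Fin n) := ⟨⟨0, hn⟩⟩
  obtain ⟨-, y, hy, hv⟩ := matrix_minimax (I := Fin L → Option (Fin n)) (J := Fin (L + 1) → Fin n)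
    fun A h => (pay L A h : ℝ)
  have key : ∀ N : ℕ, 2 ≤ N → ENNReal.ofReal (matVal n L - (2 * L + 2) / N) ≤ lowerValue n w :=
    fun N hN => le_iSup₂_of_le (stratH hw hN L y) (stratH_prob hw hN L hy)
      (le_iInf₂ fun μ hμ => le_payoff_stratH hn hw hN L hy hv μ)
  have t1 : Filter.Tendsto (fun N : ℕ => ENNReal.ofReal (matVal n L - (2 * L + 2) / N))
      Filter.atTop (nhds (ENNReal.ofReal (matVal n L - 0))) :=
    ENNReal.tendsto_ofReal (tendsto_const_nhds.sub (tendsto_const_div_atTop_nhds_zero_nat _))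
  rw [sub_zero] at t1
  exact le_of_tendsto t1 (Filter.eventually_atTop.2 ⟨2, key⟩)

theorem lower_le_upper (n : ℕ) (w : ℝ) : lowerValue n w ≤ upperValue n w :=
  iSup₂_le fun ν hν => le_iInf₂ fun μ hμ =>
    (iInf₂_le μ hμ).trans (le_iSup₂ (f := fun (ν : Measure (HPath n w))
      (_ : IsProbabilityMeasure ν) => payoff μ ν) ν hν)

theorem exists_opt (hn : 0 < n) (L : ℕ) : ∃ x ∈ stdSimplex ℝ (Fin L → Option (Fin n)),
    ∀ h : Fin (L + 1) → Fin n, ∑ A, x A * (pay L A h : ℝ) ≤ matVal n L := by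
  haveI : Nonempty (Fin n) := ⟨⟨0, hn⟩⟩
  exact (matrix_minimax (I := Fin L → Option (Fin n)) (J := Fin (L + 1) → Fin n)
    fun A h => (pay L A h : ℝ)).1

theorem matVal_le (hn : 0 < n) (L : ℕ) : matVal n L ≤ 2 * n := by
  have h := (matVal_le_lowerValue hn (le_refl 1) L).trans
    ((lower_le_upper n 1).trans (upperValue_le_two_mul hn 1))
  have e2 : (2 * n : ℝ≥0∞) = ENNReal.ofReal (2 * n) := by
    rw [ENNReal.ofReal_mul (by norm_num)]; simp
  rw [e2] at h
  exact (ENNReal.ofReal_le_ofReal_iff (by positivity)).1 h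

theorem upperValue_le (hn : 0 < n) (w : ℝ) (L : ℕ) (hL : 0 < L) :
    upperValue n w ≤ ENNReal.ofReal ((1 + n / L) * matVal n L) := by
  obtain ⟨x, hx, hv⟩ := exists_opt hn L
  exact iInf₂_le_of_le (stratS hn L x) (stratS_prob hn L hx)
    (iSup₂_le fun ν hν => payoff_stratS_le hn L hL hx hv ν)

theorem upperValue_le_iSup (hn : 0 < n) (w : ℝ) :
    upperValue n w ≤ ⨆ L, ENNReal.ofReal (matVal n L) := by
  have key : ∀ L : ℕ, 1 ≤ L → upperValue n w ≤
      (⨆ L, ENNReal.ofReal (matVal n L)) + ENNReal.ofReal (2 * n ^ 2 / L) := by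
    intro L hL
    refine (upperValue_le hn w L hL).trans ?_
    have h1 : (1 + n / L) * matVal n L ≤ matVal n L + 2 * n ^ 2 / L := by
      have h2 := matVal_le hn L
      have h3 : (n : ℝ) / L * matVal n L ≤ n / L * (2 * n) :=
        mul_le_mul_of_nonneg_left h2 (by positivity)
      have h4 : (n : ℝ) / L * (2 * n) = 2 * n ^ 2 / L := by ring
      linarith
    refine (ENNReal.ofReal_le_ofReal h1).trans (ENNReal.ofReal_add_le.trans ?_)
    gcongr
    exact le_iSup (fun L => ENNReal.ofReal (matVal n L)) L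
  have t1 : Filter.Tendsto (fun L : ℕ => (⨆ L, ENNReal.ofReal (matVal n L)) +
      ENNReal.ofReal (2 * n ^ 2 / L)) Filter.atTop
      (nhds ((⨆ L, ENNReal.ofReal (matVal n L)) + ENNReal.ofReal 0)) :=
    tendsto_const_nhds.add (ENNReal.tendsto_ofReal (tendsto_const_div_atTop_nhds_zero_nat _))
  rw [ENNReal.ofReal_zero, add_zero] at t1
  exact ge_of_tendsto t1 (Filter.eventually_atTop.2 ⟨1, key⟩)

theorem values_eq (hn : 0 < n) {w : ℝ} (hw : 1 ≤ w) :
    upperValue n w = ⨆ L, ENNReal.ofReal (matVal n L) ∧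
      lowerValue n w = ⨆ L, ENNReal.ofReal (matVal n L) := by
  have h1 := upperValue_le_iSup hn w
  have h2 : ⨆ L, ENNReal.ofReal (matVal n L) ≤ lowerValue n w :=
    iSup_le fun L => matVal_le_lowerValue hn hw L
  have h3 := lower_le_upper n w
  exact ⟨le_antisymm h1 (h2.trans h3), le_antisymm (h3.trans h1) h2⟩

end Pool.Agent.Lib.MP_dff026_lc
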