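import Pool.Agent.Lib.MP_dff026_lc.Basic

open MeasureTheory
open scoped NNReal ENNReal

namespace Pool.Agent.Lib.MP_dff026_lc

variable {n : ℕ}

lemma capTime_le {S H : ℝ≥0 → Fin n → ℝ} {t : ℝ≥0} (h : S t = H t) : capTime S H ≤ t :=
  iInf₂_le t h

lemma le_capTime {S H : ℝ≥0 → Fin n → ℝ} {c : ℝ≥0∞} (h : ∀ t : ℝ≥0, S t = H t → c ≤ t) :
    c ≤ capTime S H :=
  le_iInf₂ h

noncomputable def gridT (p : ℕ × ℕ) : ℝ≥0 := (p.1 : ℝ≥0) / ((p.2 : ℝ≥0) + 1)

lemma exists_gridT (t : ℝ≥0) (e : ℝ) (he : 0 < e) :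
    ∃ p, gridT p ≤ t ∧ (t : ℝ) - gridT p ≤ e := by
  obtain ⟨M, hM⟩ := exists_nat_one_div_lt he
  have hM1 : (0 : ℝ) < (M : ℝ) + 1 := by positivity
  refine ⟨(⌊(t : ℝ) * (M + 1)⌋₊, M), ?_, ?_⟩
  · rw [← NNReal.coe_le_coe]
    simp only [gridT, NNReal.coe_div, NNReal.coe_natCast, NNReal.coe_add, NNReal.coe_one]
    rw [div_le_iff₀ hM1]
    exact Nat.floor_le (by positivity)
  · simp only [gridT, NNReal.coe_div, NNReal.coe_natCast, NNReal.coe_add, NNReal.coe_one]
    have h1 := Nat.lt_floor_add_one ((t : ℝ) * (M + 1))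
    have h2 : (t : ℝ) - (⌊(t : ℝ) * (M + 1)⌋₊ : ℝ) / (M + 1)
        = ((t : ℝ) * (M + 1) - (⌊(t : ℝ) * (M + 1)⌋₊ : ℝ)) / (M + 1) := by
      field_simp
    rw [h2]
    refine le_trans ?_ hM.le
    gcongr
    linarith

lemma gap_abs_le {w : ℝ} {S H : ℝ≥0 → Fin n → ℝ} (hS : IsPath 1 S) (hH : IsPath w H)
    (s t : ℝ≥0) : |starDist (S s) (H s) - starDist (S t) (H t)| ≤ (1 + w) * |(t : ℝ) - s| := by
  have a1 := hS.dist_le s t
  have a2 := hH.dist_le s t
  have b1 := starDist_triangle (S s) (S t) (H s)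
  have b2 := starDist_triangle (S t) (H t) (H s)
  have b3 := starDist_triangle (S t) (S s) (H t)
  have b4 := starDist_triangle (S s) (H s) (H t)
  have c1 := starDist_comm (H t) (H s)
  have c2 := starDist_comm (S t) (S s)
  rw [abs_le]
  constructor <;> nlinarith

open Classical in
lemma capTime_eq {w : ℝ} (hw : 0 ≤ w) {S H : ℝ≥0 → Fin n → ℝ} (hS : IsPath 1 S)
    (hH : IsPath w H) :
    capTime S H = ⨆ N : ℕ, ⨅ p : ℕ × ℕ,
      if starDist (S (gridT p)) (H (gridT p)) ≤ 1 / ((N : ℝ) + 1) then (gridT p : ℝ≥0∞) else ⊤ := by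
  apply le_antisymm
  · refine le_of_forall_gt_imp_ge_of_dense fun b hb => ?_
    rcases eq_or_ne b ⊤ with rfl | hbt
    · exact le_top
    lift b to ℝ≥0 using hbt
    have hcont : Continuous fun t => starDist (S t) (H t) :=
      continuous_of_abs_le (gap_abs_le hS hH)
    obtain ⟨t0, ht0, hmin⟩ := (isCompact_Icc (a := (0 : ℝ≥0)) (b := b)).exists_isMinOn
      ⟨0, by simp⟩ hcont.continuousOn
    have hz : starDist (S t0) (H t0) ≤ 0 := by
      refine le_of_forall_pos_le_add fun e he => ?_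
      obtain ⟨N, hN⟩ := exists_nat_one_div_lt he
      have h1 := (le_iSup (fun N : ℕ => ⨅ p : ℕ × ℕ,
        if starDist (S (gridT p)) (H (gridT p)) ≤ 1 / ((N : ℝ) + 1) then (gridT p : ℝ≥0∞)
          else ⊤) N).trans_lt hb
      obtain ⟨p, hp⟩ := iInf_lt_iff.1 h1
      split_ifs at hp with h2
      · have h3 : gridT p ∈ Set.Icc (0 : ℝ≥0) b := ⟨zero_le, by exact_mod_cast hp.le⟩
        have := hmin h3
        simp only [Set.mem_ofPred_eq] at this
        linarith
      · simp at hp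
    exact (capTime_le (eq_of_starDist hz)).trans (by exact_mod_cast ht0.2)
  · refine iSup_le fun N => le_capTime fun t ht => ?_
    have h1 : (0 : ℝ) < 1 / ((N : ℝ) + 1) / (1 + w) := by positivity
    obtain ⟨p, hp1, hp2⟩ := exists_gridT t _ h1
    refine (iInf_le _ p).trans ?_
    have h2 := gap_abs_le hS hH (gridT p) t
    have h3 : starDist (S t) (H t) = 0 := by simp [ht, starDist]
    have h4 : |(t : ℝ) - gridT p| ≤ 1 / ((N : ℝ) + 1) / (1 + w) := by
      rw [abs_of_nonneg (by simpa using hp1)]; exact hp2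
    have h5 : starDist (S (gridT p)) (H (gridT p)) ≤ 1 / ((N : ℝ) + 1) := by
      rw [h3, sub_zero] at h2
      refine (le_abs_self _).trans (h2.trans ?_)
      rw [le_div_iff₀ (by positivity)] at h4
      linarith
    rw [if_pos h5]
    exact_mod_cast hp1

lemma measurable_capTime {w : ℝ} (hw : 0 ≤ w) :
    Measurable fun p : SPath n × HPath n w => capTime p.1.1 p.2.1 := by
  classical
  have : (fun p : SPath n × HPath n w => capTime p.1.1 p.2.1) = fun p => ⨆ N : ℕ, ⨅ q : ℕ × ℕ,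
      if starDist (p.1.1 (gridT q)) (p.2.1 (gridT q)) ≤ 1 / ((N : ℝ) + 1) then (gridT q : ℝ≥0∞)
        else ⊤ := funext fun p => capTime_eq hw p.1.2.1 p.2.2
  rw [this]
  refine Measurable.iSup fun N => Measurable.iInf fun q => ?_
  refine Measurable.ite ?_ measurable_const measurable_const
  refine measurableSet_le ?_ measurable_const
  unfold starDist
  refine Finset.measurable_sum _ fun i _ => ?_
  have m1 : Measurable fun p : SPath n × HPath n w => p.1.1 (gridT q) i :=
    (measurable_pi_apply i).comp ((measurable_pi_apply (gridT q)).comp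
      (measurable_subtype_coe.comp measurable_fst))
  have m2 : Measurable fun p : SPath n × HPath n w => p.2.1 (gridT q) i :=
    (measurable_pi_apply i).comp ((measurable_pi_apply (gridT q)).comp
      (measurable_subtype_coe.comp measurable_snd))
  exact (m1.sub m2).abs

end Pool.Agent.Lib.MP_dff026_lc
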