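import Pool.Agent.Lib.MP_dff026_lc.Upper

open MeasureTheory
open scoped NNReal ENNReal

namespace Pool.Agent.Lib.MP_dff026_lc

variable {n : ℕ}

noncomputable def toS (hn : 0 < n) (L : ℕ) (A : Fin L → Option (Fin n)) (B : ℕ → Fin n) :
    SPath n :=
  ⟨roundPath (splice L A B), roundPath_ok hn _⟩

lemma measurable_round (L : ℕ) (A : Fin L → Option (Fin n)) :
    Measurable fun B : ℕ → Fin n => roundPath (splice L A B) := by
  refine measurable_pi_lambda _ fun t => ?_
  simp only [roundPath_eq, splice]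
  split_ifs with h
  · exact measurable_const
  · exact (measurable_of_countable fun a : Fin n =>
      posAt (some a) ((t : ℝ) - 2 * (⌊(t : ℝ) / 2⌋₊ : ℝ))).comp (measurable_pi_apply _)

lemma measurable_toS (hn : 0 < n) (L : ℕ) (A : Fin L → Option (Fin n)) :
    Measurable (toS hn L A) :=
  (measurable_round L A).subtype_mk

noncomputable def unif (n : ℕ) : Measure (ℕ → Fin n) :=
  Measure.infinitePi fun _ : ℕ => ProbabilityTheory.uniformOn (Set.univ : Set (Fin n))

lemma unif_prob (hn : 0 < n) : IsProbabilityMeasure (unif n) := by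
  haveI : Nonempty (Fin n) := ⟨⟨0, hn⟩⟩
  unfold unif; infer_instance

noncomputable def stratS (hn : 0 < n) (L : ℕ) (x : (Fin L → Option (Fin n)) → ℝ) :
    Measure (SPath n) :=
  ∑ A, ENNReal.ofReal (x A) • (unif n).map (toS hn L A)

lemma stratS_prob (hn : 0 < n) (L : ℕ) {x : (Fin L → Option (Fin n)) → ℝ}
    (hx : x ∈ stdSimplex ℝ _) : IsProbabilityMeasure (stratS hn L x) := by
  haveI := unif_prob hn
  constructor
  unfold stratS
  rw [Measure.finsetSum_apply]
  have : ∀ A, (ENNReal.ofReal (x A) • (unif n).map (toS hn L A)) Set.univ = ENNReal.ofReal (x A) := by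
    intro A
    haveI := Measure.isProbabilityMeasure_map (μ := unif n) (measurable_toS hn L A).aemeasurable
    simp
  simp only [this]
  rw [← ENNReal.ofReal_sum_of_nonneg fun A _ => hx.1 A, hx.2, ENNReal.ofReal_one]

lemma stratS_map (hn : 0 < n) (L : ℕ) (x : (Fin L → Option (Fin n)) → ℝ) :
    (stratS hn L x).map Subtype.val = stratLaw n L x := by
  unfold stratS stratLaw
  rw [Measure.map_finset_sum measurable_subtype_coe.aemeasurable]
  refine Finset.sum_congr rfl fun A _ => ?_
  rw [Measure.map_smul, Measure.map_map measurable_subtype_coe (measurable_toS hn L A)]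
  rfl

lemma splice_restrict (L : ℕ) (A : Fin L → Option (Fin n)) (B : ℕ → Fin n) :
    (fun i : Fin L => splice L A B i) = A := by
  funext i; simp [splice]

lemma capTime_le_main (hn : 0 < n) {w : ℝ} {H : ℝ≥0 → Fin n → ℝ} (hH : IsPath w H) (L : ℕ)
    (hL : 0 < L) (A : Fin L → Option (Fin n)) (B : ℕ → Fin n) :
    capTime (roundPath (splice L A B)) H ≤ (pay L A fun i => arcSeq hn H i : ℕ) +
      ENNReal.ofReal ((pay L A fun i => arcSeq hn H i : ℕ) / (2 * L)) * tailG L (arcSeq hn H) B := by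
  have e : (pay L A fun i => arcSeq hn H i) = payN L (splice L A B) (arcSeq hn H) := by
    rw [← pay_eq_payN, splice_restrict]
  rw [e]
  rcases (payN_le L (splice L A B) (arcSeq hn H)).lt_or_eq with h | h
  · exact (capTime_le_of_hit hn hH _ _ (hit_of_payN_lt _ _ _ h)).trans le_self_add
  · rw [h]
    have : ((2 * L : ℕ) : ℝ) / (2 * L) = 1 := by
      push_cast; exact div_self (by positivity)
    rw [this, ENNReal.ofReal_one, one_mul]
    simpa using capTime_le_tail hn hH L A B

lemma payoff_le_of_pure {w : ℝ} (μ : Measure (SPath n)) [IsProbabilityMeasure μ]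
    (ν : Measure (HPath n w)) [IsProbabilityMeasure ν] {c : ℝ≥0∞}
    (h : ∀ H : HPath n w, ∫⁻ S, capTime S.1 H.1 ∂μ ≤ c) : payoff μ ν ≤ c := by
  unfold payoff
  rw [← lintegral_prod_swap]
  refine (lintegral_prod_le _).trans ?_
  refine (lintegral_mono (g := fun _ => c) fun H => h H).trans ?_
  simp

lemma lintegral_stratS_le (hn : 0 < n) (L : ℕ) (x : (Fin L → Option (Fin n)) → ℝ)
    (f : SPath n → ℝ≥0∞) :
    ∫⁻ S, f S ∂(stratS hn L x) ≤
      ∑ A, ENNReal.ofReal (x A) * ∫⁻ B, f (toS hn L A B) ∂(unif n) := by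
  unfold stratS
  rw [lintegral_finsetSum_measure]
  refine Finset.sum_le_sum fun A _ => ?_
  rw [lintegral_smul_measure, smul_eq_mul]
  gcongr
  exact lintegral_map_le _ _

theorem payoff_stratS_le (hn : 0 < n) {w : ℝ} (L : ℕ) (hL : 0 < L)
    {x : (Fin L → Option (Fin n)) → ℝ} (hx : x ∈ stdSimplex ℝ _) {v : ℝ}
    (hv : ∀ h : Fin (L + 1) → Fin n, ∑ A, x A * (pay L A h : ℝ) ≤ v)
    (ν : Measure (HPath n w)) [IsProbabilityMeasure ν] :
    payoff (stratS hn L x) ν ≤ ENNReal.ofReal ((1 + n / L) * v) := by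
  haveI := stratS_prob hn L hx
  haveI := unif_prob hn
  refine payoff_le_of_pure _ _ fun H => (lintegral_stratS_le hn L x _).trans ?_
  have hL' : (0 : ℝ) < L := by exact_mod_cast hL
  have h1 : ∀ A, ∫⁻ B, capTime (toS hn L A B).1 H.1 ∂(unif n) ≤
      ENNReal.ofReal ((1 + n / L) * (pay L A fun i => arcSeq hn H.1 i : ℕ)) := by
    intro A
    refine (lintegral_mono fun B => capTime_le_main hn H.2 L hL A B).trans ?_
    rw [lintegral_add_left measurable_const, lintegral_const_mul' _ _ ENNReal.ofReal_ne_top]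
    unfold unif
    rw [lintegral_tailG hn]
    haveI : Nonempty (Fin n) := ⟨⟨0, hn⟩⟩
    rw [lintegral_const, measure_univ, mul_one]
    generalize (pay L A fun i => arcSeq hn H.1 i) = p
    have e1 : (p : ℝ≥0∞) = ENNReal.ofReal p := by simp
    have e2 : (2 * n : ℝ≥0∞) = ENNReal.ofReal (2 * n) := by
      rw [ENNReal.ofReal_mul (by norm_num)]; simp
    rw [e1, e2, ← ENNReal.ofReal_mul (by positivity),
      ← ENNReal.ofReal_add (by positivity) (by positivity)]
    refine le_of_eq (congrArg _ ?_)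
    field_simp
  calc _ ≤ ∑ A, ENNReal.ofReal (x A) *
        ENNReal.ofReal ((1 + n / L) * (pay L A fun i => arcSeq hn H.1 i : ℕ)) :=
        Finset.sum_le_sum fun A _ => by gcongr; exact h1 A
    _ = ENNReal.ofReal (∑ A, x A * ((1 + n / L) * (pay L A fun i => arcSeq hn H.1 i : ℕ))) := by
        rw [ENNReal.ofReal_sum_of_nonneg fun A _ => mul_nonneg (hx.1 A) (by positivity)]
        exact Finset.sum_congr rfl fun A _ => (ENNReal.ofReal_mul (hx.1 A)).symm
    _ ≤ _ := by
        refine ENNReal.ofReal_le_ofReal ?_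
        have := hv fun i => arcSeq hn H.1 i
        calc _ = (1 + n / L) * ∑ A, x A * ((pay L A fun i => arcSeq hn H.1 i : ℕ) : ℝ) := by
              rw [Finset.mul_sum]; exact Finset.sum_congr rfl fun A _ => by ring
          _ ≤ _ := by gcongr

theorem upperValue_le_two_mul (hn : 0 < n) (w : ℝ) : upperValue n w ≤ 2 * n := by
  have hx : (fun _ => 1 : (Fin 0 → Option (Fin n)) → ℝ) ∈ stdSimplex ℝ _ :=
    ⟨fun _ => zero_le_one, by simp⟩
  haveI := stratS_prob hn 0 hx
  refine iInf₂_le_of_le (stratS hn 0 fun _ => 1) this (iSup₂_le fun ν hν => ?_)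
  refine payoff_le_of_pure _ _ fun H => (lintegral_stratS_le hn 0 _ _).trans ?_
  rw [Fintype.sum_unique, ENNReal.ofReal_one, one_mul]
  refine (lintegral_mono fun B => capTime_le_tail hn H.2 0 default B).trans ?_
  simp only [Nat.cast_zero, mul_zero, zero_add]
  exact (lintegral_tailG hn 0 _).le

end Pool.Agent.Lib.MP_dff026_lc
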