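import Pool.Agent.Lib.MP_dff026_lc.Meas

open MeasureTheory
open scoped NNReal ENNReal

namespace Pool.Agent.Lib.MP_dff026_lc

variable {n : ℕ}

/-- position for action `α` at phase `u ∈ [0,2]` -/
noncomputable def posAt (α : Option (Fin n)) (u : ℝ) : Fin n → ℝ :=
  match α with
  | none => 0
  | some a => Pi.single a (1 - |u - 1|)

lemma roundPath_eq (A : ℕ → Option (Fin n)) (t : ℝ≥0) :
    roundPath A t = posAt (A ⌊(t : ℝ) / 2⌋₊) ((t : ℝ) - 2 * (⌊(t : ℝ) / 2⌋₊ : ℝ)) := by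
  unfold roundPath posAt
  cases A ⌊(t : ℝ) / 2⌋₊ <;> rfl

lemma posAt_zero (α : Option (Fin n)) : posAt α 0 = 0 := by
  cases α <;> simp [posAt]

lemma posAt_two (α : Option (Fin n)) : posAt α 2 = 0 := by
  cases α
  · simp [posAt]
  · simp only [posAt]; norm_num

lemma floor_bounds (t : ℝ≥0) :
    2 * (⌊(t : ℝ) / 2⌋₊ : ℝ) ≤ t ∧ (t : ℝ) < 2 * (⌊(t : ℝ) / 2⌋₊ : ℝ) + 2 := by
  have h1 := Nat.floor_le (a := (t : ℝ) / 2) (by positivity)
  have h2 := Nat.lt_floor_add_one ((t : ℝ) / 2)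
  constructor <;> linarith

lemma roundPath_of_mem (A : ℕ → Option (Fin n)) (k : ℕ) (t : ℝ≥0) (h1 : 2 * (k : ℝ) ≤ t)
    (h2 : (t : ℝ) ≤ 2 * k + 2) : roundPath A t = posAt (A k) ((t : ℝ) - 2 * k) := by
  rw [roundPath_eq]
  rcases h2.lt_or_eq with h | h
  · have : ⌊(t : ℝ) / 2⌋₊ = k := by
      rw [Nat.floor_eq_iff (by positivity)]; constructor <;> linarith
    rw [this]
  · have : ⌊(t : ℝ) / 2⌋₊ = k + 1 := by
      rw [Nat.floor_eq_iff (by positivity)]; push_cast; constructor <;> linarith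
    rw [this, h]
    have e1 : (2 * (k : ℝ) + 2 - 2 * ((k + 1 : ℕ) : ℝ)) = 0 := by push_cast; ring
    have e2 : (2 * (k : ℝ) + 2 - 2 * k) = 2 := by ring
    rw [e1, e2, posAt_zero, posAt_two]

lemma posAt_dist (α : Option (Fin n)) (u v : ℝ) : starDist (posAt α u) (posAt α v) ≤ |u - v| := by
  cases α
  · simp [posAt, starDist]
  · simp only [posAt]
    rw [starDist_single_same]
    have := abs_abs_sub_abs_le_abs_sub (v - 1) (u - 1)
    have e : (1 - |u - 1| - (1 - |v - 1|)) = |v - 1| - |u - 1| := by ring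
    rw [e]
    refine this.trans (le_of_eq ?_)
    rw [abs_sub_comm u v]; congr 1; ring

lemma roundPath_ok (hn : 0 < n) (A : ℕ → Option (Fin n)) :
    IsPath 1 (roundPath A) ∧ roundPath A 0 = 0 := by
  refine ⟨⟨fun t => ?_, fun s t hst => ?_⟩, ?_⟩
  · rw [roundPath_eq]
    obtain ⟨h1, h2⟩ := floor_bounds t
    cases A ⌊(t : ℝ) / 2⌋₊ with
    | none => exact ⟨⟨0, hn⟩, 0, le_rfl, zero_le_one, by simp [posAt]⟩
    | some a =>
      refine ⟨a, _, ?_, ?_, rfl⟩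
      · have : |(t : ℝ) - 2 * (⌊(t : ℝ) / 2⌋₊ : ℝ) - 1| ≤ 1 := by
          rw [abs_le]; constructor <;> linarith
        linarith
      · linarith [abs_nonneg ((t : ℝ) - 2 * (⌊(t : ℝ) / 2⌋₊ : ℝ) - 1)]
  · rw [roundPath_eq, roundPath_eq, one_mul]
    obtain ⟨h1, h2⟩ := floor_bounds t
    obtain ⟨h3, h4⟩ := floor_bounds s
    have hst' : (s : ℝ) ≤ t := hst
    have hle : ⌊(s : ℝ) / 2⌋₊ ≤ ⌊(t : ℝ) / 2⌋₊ := Nat.floor_le_floor (by linarith)
    rcases hle.lt_or_eq with h | h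
    · have h5 : (⌊(s : ℝ) / 2⌋₊ : ℝ) + 1 ≤ ⌊(t : ℝ) / 2⌋₊ := by exact_mod_cast h
      refine (starDist_triangle _ 0 _).trans ?_
      have a1 := posAt_dist (A ⌊(s : ℝ) / 2⌋₊) ((s : ℝ) - 2 * (⌊(s : ℝ) / 2⌋₊ : ℝ)) 2
      have a2 := posAt_dist (A ⌊(t : ℝ) / 2⌋₊) 0 ((t : ℝ) - 2 * (⌊(t : ℝ) / 2⌋₊ : ℝ))
      rw [posAt_two, abs_of_nonpos (by linarith)] at a1
      rw [posAt_zero, abs_of_nonpos (by linarith)] at a2
      linarith
    · rw [h]
      refine (posAt_dist _ _ _).trans ?_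
      rw [abs_of_nonpos (by linarith)]; linarith
  · rw [roundPath_eq]; simp [posAt_zero]

/-- the arc of a point of the star -/
noncomputable def arcOf (hn : 0 < n) (x : Fin n → ℝ) : Fin n :=
  open Classical in if h : InStar x then h.choose else ⟨0, hn⟩

lemma arcOf_spec (hn : 0 < n) {x : Fin n → ℝ} (hx : InStar x) :
    ∃ r : ℝ, 0 ≤ r ∧ r ≤ 1 ∧ x = Pi.single (arcOf hn x) r := by
  unfold arcOf
  rw [dif_pos hx]
  exact hx.choose_spec

lemma sgn_arcOf (hn : 0 < n) {x : Fin n → ℝ} (hx : InStar x) : 0 ≤ sgn (arcOf hn x) x := by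
  obtain ⟨r, h0, -, h⟩ := arcOf_spec hn hx
  generalize arcOf hn x = a at h
  rw [h, sgn_single_self]; exact h0

lemma sgn_ne_arcOf (hn : 0 < n) {x : Fin n → ℝ} (hx : InStar x) {a : Fin n}
    (ha : arcOf hn x ≠ a) : sgn a x ≤ 0 := by
  obtain ⟨r, h0, -, h⟩ := arcOf_spec hn hx
  generalize arcOf hn x = b at h ha
  rw [h, sgn_single_ne ha]; linarith

lemma arcOf_of_pos (hn : 0 < n) {x : Fin n → ℝ} (hx : InStar x) {a : Fin n}
    (ha : 0 < sgn a x) : arcOf hn x = a := by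
  by_contra h
  linarith [sgn_ne_arcOf hn hx h]

lemma ivt_zero {g : ℝ≥0 → ℝ} (hg : Continuous g) {s t : ℝ≥0} (hst : s ≤ t)
    (h : (g s ≤ 0 ∧ 0 ≤ g t) ∨ (0 ≤ g s ∧ g t ≤ 0)) : ∃ u, s ≤ u ∧ u ≤ t ∧ g u = 0 := by
  rcases h with h | h
  · obtain ⟨u, hu, h0⟩ := intermediate_value_Icc hst hg.continuousOn (show (0 : ℝ) ∈ _ from h)
    exact ⟨u, hu.1, hu.2, h0⟩
  · obtain ⟨u, hu, h0⟩ := intermediate_value_Icc' hst hg.continuousOn
      (show (0 : ℝ) ∈ Set.Icc (g t) (g s) from ⟨h.2, h.1⟩)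
    exact ⟨u, hu.1, hu.2, h0⟩

/-- arcs of the hider at the starts of the rounds -/
noncomputable def arcSeq (hn : 0 < n) (H : ℝ≥0 → Fin n → ℝ) (k : ℕ) : Fin n :=
  arcOf hn (H (2 * k))

lemma capTime_le_of_hit (hn : 0 < n) {w : ℝ} {H : ℝ≥0 → Fin n → ℝ} (hH : IsPath w H)
    (A : ℕ → Option (Fin n)) (τ : ℕ) (hτ : Hit A (arcSeq hn H) τ) :
    capTime (roundPath A) H ≤ τ := by
  have key : ∀ (k : ℕ) (a : Fin n) (s t : ℝ≥0), A k = some a → 2 * (k : ℝ) ≤ s → s ≤ t →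
      (t : ℝ) ≤ 2 * k + 2 →
      ((1 - |(s : ℝ) - 2 * k - 1| - sgn a (H s) ≤ 0 ∧ 0 ≤ 1 - |(t : ℝ) - 2 * k - 1| - sgn a (H t)) ∨
        (0 ≤ 1 - |(s : ℝ) - 2 * k - 1| - sgn a (H s) ∧ 1 - |(t : ℝ) - 2 * k - 1| - sgn a (H t) ≤ 0)) →
      capTime (roundPath A) H ≤ t := by
    intro k a s t hA h1 h2 h3 h4
    have hc : Continuous fun u : ℝ≥0 => 1 - |(u : ℝ) - 2 * k - 1| - sgn a (H u) := by
      have := hH.continuous_sgn a
      fun_prop
    obtain ⟨u, hu1, hu2, hu⟩ := ivt_zero hc h2 h4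
    have hu1' : (s : ℝ) ≤ u := hu1
    have hu2' : (u : ℝ) ≤ t := hu2
    have hpos : 0 ≤ 1 - |(u : ℝ) - 2 * k - 1| := by
      have : |(u : ℝ) - 2 * k - 1| ≤ 1 := by rw [abs_le]; constructor <;> linarith
      linarith
    have e : sgn a (H u) = 1 - |(u : ℝ) - 2 * k - 1| := by linarith
    have e2 : roundPath A u = H u := by
      rw [roundPath_of_mem A k u (by linarith) (by linarith), hA,
        eq_of_sgn (a := a) (hH.1 u) (by rw [e]; exact hpos), e]
      rfl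
    exact (capTime_le e2).trans (by exact_mod_cast hu2)
  rcases hτ with ⟨k, rfl, hA⟩ | ⟨k, rfl, hmv, hA | hA⟩
  · have := key k _ (2 * k) (2 * k + 1) hA (by simp) (by simp) (by push_cast; linarith) (Or.inl ?_)
    · exact_mod_cast this
    · have a1 : 0 ≤ sgn (arcSeq hn H k) (H (2 * k)) := sgn_arcOf hn (hH.1 _)
      have a2 : sgn (arcSeq hn H k) (H (2 * k + 1)) ≤ 1 := sgn_le_one (hH.1 _)
      constructor
      · simpa using a1
      · simpa using a2
  · have a1 : 0 ≤ sgn (arcSeq hn H k) (H (2 * k)) := sgn_arcOf hn (hH.1 _)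
    have a2 : sgn (arcSeq hn H k) (H (2 * ((k + 1 : ℕ) : ℝ≥0))) ≤ 0 := sgn_ne_arcOf hn (hH.1 _) hmv
    obtain ⟨u, hu1, hu2, hu⟩ := ivt_zero (hH.continuous_sgn (arcSeq hn H k))
      (s := 2 * k) (t := 2 * ((k + 1 : ℕ) : ℝ≥0)) (by gcongr; omega) (Or.inr ⟨a1, a2⟩)
    have hu1' : 2 * (k : ℝ) ≤ u := by exact_mod_cast hu1
    have hu2' : (u : ℝ) ≤ 2 * k + 2 := by
      have : (u : ℝ) ≤ 2 * ((k + 1 : ℕ) : ℝ) := by exact_mod_cast hu2
      push_cast at this; linarith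
    have e2 : roundPath A u = H u := by
      rw [roundPath_of_mem A k u hu1' hu2', hA,
        eq_of_sgn (a := arcSeq hn H k) (hH.1 u) hu.ge, hu]
      simp [posAt]
    refine (capTime_le e2).trans ?_
    have : u ≤ ((2 * k + 2 : ℕ) : ℝ≥0) := by
      rw [← NNReal.coe_le_coe]; push_cast; exact hu2'
    exact_mod_cast this
  · have := key k _ (2 * k + 1) (2 * ((k + 1 : ℕ) : ℝ≥0)) hA (by push_cast; linarith)
      (by rw [← NNReal.coe_le_coe]; push_cast; linarith) (by push_cast; linarith) (Or.inr ?_)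
    · refine this.trans (le_of_eq ?_)
      push_cast; ring
    · have a1 : 0 ≤ sgn (arcSeq hn H (k + 1)) (H (2 * ((k + 1 : ℕ) : ℝ≥0))) :=
        sgn_arcOf hn (hH.1 _)
      have a2 : sgn (arcSeq hn H (k + 1)) (H (2 * k + 1)) ≤ 1 := sgn_le_one (hH.1 _)
      constructor
      · simpa using a2
      · have e : (((2 * ((k + 1 : ℕ) : ℝ≥0) : ℝ≥0) : ℝ) - 2 * k - 1) = 1 := by push_cast; ring
        rw [e]; simpa using a1

/-- number of failed random sweeps, doubled -/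
noncomputable def tailG (L : ℕ) (h : ℕ → Fin n) (B : ℕ → Fin n) : ℝ≥0∞ :=
  ∑' i : ℕ, 2 * (Set.pi (Finset.Ico L (L + i) : Set ℕ) fun k => {h k}ᶜ).indicator 1 B

lemma capTime_le_tail (hn : 0 < n) {w : ℝ} {H : ℝ≥0 → Fin n → ℝ} (hH : IsPath w H) (L : ℕ)
    (A : Fin L → Option (Fin n)) (B : ℕ → Fin n) :
    capTime (roundPath (splice L A B)) H ≤ 2 * L + tailG L (arcSeq hn H) B := by
  classical
  by_cases hex : ∃ j, B (L + j) = arcSeq hn H (L + j)
  · set j := Nat.find hex with hj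
    have h1 : Hit (splice L A B) (arcSeq hn H) (2 * (L + j) + 1) :=
      Or.inl ⟨L + j, rfl, by
        rw [splice, dif_neg (by omega), Nat.find_spec hex]⟩
    refine (capTime_le_of_hit hn hH _ _ h1).trans ?_
    have h2 : ((2 * (j + 1) : ℕ) : ℝ≥0∞) ≤ tailG L (arcSeq hn H) B := by
      refine le_trans ?_ (ENNReal.sum_le_tsum (Finset.range (j + 1)))
      rw [Finset.sum_congr rfl (g := fun _ => 2)]
      · simp [mul_comm]
      · intro i hi
        rw [Set.indicator_of_mem]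
        · simp
        · intro k hk
          simp only [Finset.coe_Ico, Set.mem_Ico, Finset.mem_range] at hk hi
          have := Nat.find_min hex (m := k - L) (by omega)
          rw [show L + (k - L) = k by omega] at this
          exact this
    calc ((2 * (L + j) + 1 : ℕ) : ℝ≥0∞) ≤ ((2 * L + 2 * (j + 1) : ℕ) : ℝ≥0∞) := by
          exact_mod_cast (by omega)
      _ = 2 * L + ((2 * (j + 1) : ℕ) : ℝ≥0∞) := by push_cast; ring
      _ ≤ _ := by gcongr
  · have : tailG L (arcSeq hn H) B = ⊤ := by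
      unfold tailG
      rw [tsum_congr (g := fun _ => 2)]
      · exact ENNReal.tsum_const_eq_top_of_ne_zero (by norm_num)
      · intro i
        rw [Set.indicator_of_mem]
        · simp
        · intro k hk
          simp only [Finset.coe_Ico, Set.mem_Ico] at hk
          intro hB
          exact hex ⟨k - L, by rw [show L + (k - L) = k by omega]; exact hB⟩
    rw [this]; simp

lemma lintegral_tailG (hn : 0 < n) (L : ℕ) (h : ℕ → Fin n) :
    ∫⁻ B, tailG L h B ∂(Measure.infinitePi fun _ : ℕ =>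
      ProbabilityTheory.uniformOn (Set.univ : Set (Fin n))) = 2 * n := by
  haveI : Nonempty (Fin n) := ⟨⟨0, hn⟩⟩
  have hm : ∀ i, MeasurableSet (Set.pi (Finset.Ico L (L + i) : Set ℕ) fun k => ({h k}ᶜ : Set (Fin n))) :=
    fun i => MeasurableSet.pi (Finset.countable_toSet _) fun _ _ => MeasurableSet.of_discrete
  have hn0 : (n : ℝ≥0∞) ≠ 0 := by exact_mod_cast hn.ne'
  have hu : ∀ a : Fin n, ProbabilityTheory.uniformOn (Set.univ : Set (Fin n)) {a}ᶜ
      = 1 - (n : ℝ≥0∞)⁻¹ := by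
    intro a
    rw [prob_compl_eq_one_sub MeasurableSet.of_discrete, ProbabilityTheory.uniformOn_univ]
    simp
  unfold tailG
  rw [lintegral_tsum fun i => ((measurable_one.indicator (hm i)).const_mul 2).aemeasurable]
  have : ∀ i : ℕ, ∫⁻ B, 2 * (Set.pi (Finset.Ico L (L + i) : Set ℕ) fun k => ({h k}ᶜ : Set (Fin n))).indicator 1 B
      ∂(Measure.infinitePi fun _ : ℕ => ProbabilityTheory.uniformOn (Set.univ : Set (Fin n)))
      = 2 * (1 - (n : ℝ≥0∞)⁻¹) ^ i := by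
    intro i
    rw [lintegral_const_mul _ (measurable_one.indicator (hm i)), lintegral_indicator_one (hm i),
      Measure.infinitePi_pi _ fun _ _ => MeasurableSet.of_discrete]
    simp [hu]
  simp only [this]
  rw [ENNReal.tsum_mul_left, ENNReal.tsum_geometric, ENNReal.sub_sub_cancel (by simp), inv_inv]
  exact ENNReal.inv_le_one.2 (by exact_mod_cast hn)

end Pool.Agent.Lib.MP_dff026_lc
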